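import Pool.Agent.Work.MP_af7a01_gl.B_HLT
import Pool.Agent.Work.MP_af7a01_gl.B_SHF
import Pool.Agent.Work.MP_af7a01_gl.B_TOC
import Pool.Agent.Work.MP_af7a01_gl.B_CMP
import Pool.Agent.Work.MP_af7a01_gl.B_PAI
import Pool.Agent.Work.MP_af7a01_gl.B_FST
import Pool.Agent.Work.MP_af7a01_gl.B_SND
import Pool.Agent.Work.MP_af7a01_gl.B_BAS
import Pool.Agent.Work.MP_af7a01_gl.B_CAS
import Pool.Agent.Work.MP_af7a01_gl.B_FLD
import Pool.Agent.Work.MP_af7a01_gl.B_LIB
import Pool.Agent.Work.MP_af7a01_gl.B_TLS
import Pool.Agent.Work.MP_af7a01_gl.B_UNA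
import Pool.Agent.Work.MP_af7a01_gl.B_LST
import Pool.Agent.Work.MP_af7a01_gl.B_COD
import Pool.Agent.Work.MP_af7a01_gl.B_STO
import Pool.Agent.Work.MP_af7a01_gl.B_STP
import Pool.Agent.Work.MP_af7a01_gl.B_STF
import Pool.Agent.Work.MP_af7a01_gl.B_BND
import Pool.Agent.Work.MP_af7a01_gl.B_RUN

/-!
# Polynomial-time functions between types of data, relative to an oracle

A typed layer over the class `FP` of the stack program model (`MP_af7a01_gl`): `PolyF B f` says
that `f : α → β` is computed in polynomial time relative to `B` on the encodings.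
-/

open Classical Pool.IC Pool.GL Polynomial

namespace Pool.TL

theorem tTOC : Stmt_TOC := p_TOC p_HLT p_SHF
/-- The closure properties of `FP`. -/
theorem lib : Lib := p_LIB (p_CMP tTOC) (p_PAI tTOC) p_FST p_SND p_BAS (p_CAS tTOC) (p_FLD tTOC)
theorem tls : Stmt_TLS := p_TLS lib
theorem una : Stmt_UNA := p_UNA lib tls
theorem lst : Stmt_LST := p_LST lib tls
/-- Clocked universal simulation. -/
theorem run : Stmt_RUN := p_RUN lib tls lst p_STO (p_STP p_STO) (p_STF lib tls lst) p_BND

theorem poly_mono (p : Polynomial ℕ) {a b : ℕ} (h : a ≤ b) : p.eval a ≤ p.eval b := eval_mono p h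

/-- Types of data encoded by strings. -/
class SE (α : Type) where
  se : α → Str

export SE (se)

variable {α β γ δ : Type} [SE α] [SE β] [SE γ] [SE δ]

instance : SE Unit := ⟨fun _ => []⟩
instance : SE Bool := ⟨fun b => [b]⟩
instance : SE ℕ := ⟨fun n => un n⟩
instance : SE (α × β) := ⟨fun p => pr (se p.1) (se p.2)⟩
instance : SE (List α) := ⟨fun l => el (l.map se)⟩

@[simp] theorem se_unit (u : Unit) : se u = ([] : Str) := rfl
@[simp] theorem se_bool (b : Bool) : se b = [b] := rfl
@[simp] theorem se_nat (n : ℕ) : se n = un n := rfl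
@[simp] theorem se_pair (p : α × β) : se p = pr (se p.1) (se p.2) := rfl
@[simp] theorem se_nil : se ([] : List α) = ([] : Str) := rfl
@[simp] theorem se_cons (a : α) (l : List α) : se (a :: l) = true :: pr (se a) (se l) := rfl

/-- Size of a value. -/
def sz (a : α) : ℕ := (se a).length

@[simp] theorem sz_unit (u : Unit) : sz u = 0 := rfl
@[simp] theorem sz_bool (b : Bool) : sz b = 1 := rfl
@[simp] theorem sz_nat (n : ℕ) : sz n = n := by simp [sz]
@[simp] theorem sz_pair (p : α × β) : sz p = 2 * sz p.1 + sz p.2 + 1 := by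
  simp only [sz, se_pair, length_pr]
@[simp] theorem sz_nil : sz ([] : List α) = 0 := rfl
@[simp] theorem sz_cons (a : α) (l : List α) : sz (a :: l) = 2 * sz a + sz l + 2 := by
  simp only [sz, se_cons, List.length_cons, length_pr]

theorem sz_le_of_mem {a : α} {l : List α} (h : a ∈ l) : 2 * sz a < sz l := by
  induction l with
  | nil => simp at h
  | cons b l ih =>
    simp only [sz_cons]
    rcases List.mem_cons.1 h with rfl | h
    · omega
    · have := ih h
      omega

theorem length_le_sz (l : List α) : 2 * l.length ≤ sz l := by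
  induction l with
  | nil => simp
  | cons b l ih => simp; omega

theorem sz_drop_le (l : List α) (n : ℕ) : sz (l.drop n) ≤ sz l := by
  induction l generalizing n with
  | nil => simp
  | cons a l ih =>
    cases n with
    | zero => simp
    | succ n =>
      have := ih n
      simp only [List.drop_succ_cons, sz_cons]
      omega

@[simp] theorem sz_append (l l' : List α) : sz (l ++ l') = sz l + sz l' := by
  induction l with
  | nil => simp
  | cons a l ih => simp; omega

@[simp] theorem sz_reverse (l : List α) : sz l.reverse = sz l := by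
  induction l with
  | nil => simp
  | cons a l ih => simp; omega

/-- Polynomial-time computable functions relative to `B`. -/
@[fun_prop]
def PolyF (B : Set Str) (f : α → β) : Prop :=
  ∃ F : Str → Str, FP {B} (fun _ => F) ∧ ∀ a, F (se a) = se (f a)

variable {B : Set Str}

theorem PolyF.congrF {f g : α → β} (hf : PolyF B f) (h : ∀ a, f a = g a) : PolyF B g := by
  rwa [show g = f from funext fun a => (h a).symm]

theorem PolyF.size {f : α → β} (h : PolyF B f) :
    ∃ q : Polynomial ℕ, ∀ a, sz (f a) ≤ q.eval (sz a) := by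
  obtain ⟨F, hF, h⟩ := h
  obtain ⟨q, hq⟩ := hF.length
  refine ⟨q, fun a => ?_⟩
  have := hq B rfl (se a)
  rw [h] at this
  exact this

@[fun_prop]
theorem PolyF.id : PolyF B (fun a : α => a) := ⟨fun x => x, lib.idn, fun _ => rfl⟩

@[fun_prop]
theorem PolyF.const (b : β) : PolyF B (fun _ : α => b) := ⟨fun _ => se b, lib.const _, fun _ => rfl⟩

@[fun_prop]
theorem PolyF.comp {f : β → γ} {g : α → β} (hf : PolyF B f) (hg : PolyF B g) :
    PolyF B (fun a => f (g a)) := by
  obtain ⟨F, hF, hf⟩ := hf
  obtain ⟨G, hG, hg⟩ := hg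
  exact ⟨fun x => F (G x), lib.comp hG hF, fun a => by beta_reduce; rw [hg, hf]⟩

@[fun_prop]
theorem PolyF.pair {f : α → β} {g : α → γ} (hf : PolyF B f) (hg : PolyF B g) :
    PolyF B (fun a => (f a, g a)) := by
  obtain ⟨F, hF, hf⟩ := hf
  obtain ⟨G, hG, hg⟩ := hg
  exact ⟨fun x => pr (F x) (G x), lib.pair hF hG, fun a => by beta_reduce; rw [hf, hg]; rfl⟩

@[fun_prop]
theorem PolyF.fst {f : α → β × γ} (hf : PolyF B f) : PolyF B (fun a => (f a).1) := by
  obtain ⟨F, hF, hf⟩ := hf
  exact ⟨fun x => fs (F x), lib.fst hF, fun a => by beta_reduce; rw [hf]; exact fs_pr _ _⟩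

@[fun_prop]
theorem PolyF.snd {f : α → β × γ} (hf : PolyF B f) : PolyF B (fun a => (f a).2) := by
  obtain ⟨F, hF, hf⟩ := hf
  exact ⟨fun x => sn (F x), lib.snd hF, fun a => by beta_reduce; rw [hf]; exact sn_pr _ _⟩

@[fun_prop]
theorem PolyF.cond {c : α → Bool} {f g : α → β} (hc : PolyF B c) (hf : PolyF B f)
    (hg : PolyF B g) : PolyF B (fun a => cond (c a) (f a) (g a)) := by
  obtain ⟨C, hC, hc⟩ := hc
  obtain ⟨F, hF, hf⟩ := hf
  obtain ⟨G, hG, hg⟩ := hg
  refine ⟨fun x => cas (C x) (F x) (G x) (F x), lib.cas hC hF hG hF, fun a => ?_⟩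
  simp only
  rw [hc, hf, hg]
  cases c a <;> rfl

theorem PolyF.ite {c : α → Prop} [DecidablePred c] {f g : α → β}
    (hc : PolyF B (fun a => decide (c a))) (hf : PolyF B f) (hg : PolyF B g) :
    PolyF B (fun a => if c a then f a else g a) := by
  have := hc.cond hf hg
  refine this.congrF fun a => ?_
  by_cases h : c a <;> simp [h]

@[fun_prop]
theorem PolyF.not {f : α → Bool} (hf : PolyF B f) : PolyF B (fun a => !(f a)) := by
  refine (hf.cond (PolyF.const false) (PolyF.const true)).congrF fun a => ?_
  cases f a <;> rfl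

@[fun_prop]
theorem PolyF.and {f g : α → Bool} (hf : PolyF B f) (hg : PolyF B g) :
    PolyF B (fun a => f a && g a) := by
  refine (hf.cond hg (PolyF.const false)).congrF fun a => ?_
  cases f a <;> rfl

@[fun_prop]
theorem PolyF.or {f g : α → Bool} (hf : PolyF B f) (hg : PolyF B g) :
    PolyF B (fun a => f a || g a) := by
  refine (hf.cond (PolyF.const true) hg).congrF fun a => ?_
  cases f a <;> rfl

@[fun_prop]
theorem PolyF.succ {f : α → ℕ} (hf : PolyF B f) : PolyF B (fun a => f a + 1) := by
  obtain ⟨F, hF, hf⟩ := hf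
  exact ⟨fun x => true :: F x, lib.cons true hF, fun a => by beta_reduce; rw [hf]; rfl⟩

@[fun_prop]
theorem PolyF.pred {f : α → ℕ} (hf : PolyF B f) : PolyF B (fun a => f a - 1) := by
  obtain ⟨F, hF, hf⟩ := hf
  refine ⟨fun x => (F x).tail, lib.tail hF, fun a => ?_⟩
  simp only
  rw [hf]
  cases f a <;> simp [un, List.replicate_succ]

@[fun_prop]
theorem PolyF.isZero {f : α → ℕ} (hf : PolyF B f) : PolyF B (fun a => decide (f a = 0)) := by
  obtain ⟨F, hF, hf⟩ := hf
  refine ⟨fun x => cas (F x) [true] [false] [false],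
    lib.cas hF (lib.const _) (lib.const _) (lib.const _), fun a => ?_⟩
  simp only
  rw [hf]
  cases f a <;> simp [cas, un, List.replicate_succ]

@[fun_prop]
theorem PolyF.cons {f : α → β} {g : α → List β} (hf : PolyF B f) (hg : PolyF B g) :
    PolyF B (fun a => f a :: g a) := by
  obtain ⟨F, hF, hf⟩ := hf
  obtain ⟨G, hG, hg⟩ := hg
  exact ⟨fun x => true :: pr (F x) (G x), lib.cons true (lib.pair hF hG),
    fun a => by beta_reduce; rw [hf, hg]; rfl⟩

theorem fp_tll {F : Str → Str} (hF : FP {B} (fun _ => F)) : FP {B} (fun _ x => tll (F x)) :=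
  lib.snd (lib.tail hF)

theorem fp_hdl {F : Str → Str} (hF : FP {B} (fun _ => F)) : FP {B} (fun _ x => hdl (F x)) :=
  lib.fst (lib.tail hF)

theorem tll_se (l : List α) : tll (se l) = se l.tail := by
  cases l with
  | nil => rfl
  | cons a l => exact sn_pr _ _

theorem hdl_se (a : α) (l : List α) : hdl (se (a :: l)) = se a := fs_pr _ _

@[fun_prop]
theorem PolyF.tail {f : α → List β} (hf : PolyF B f) : PolyF B (fun a => (f a).tail) := by
  obtain ⟨F, hF, hf⟩ := hf
  exact ⟨fun x => tll (F x), fp_tll hF, fun a => by beta_reduce; rw [hf]; exact tll_se _⟩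

@[fun_prop]
theorem PolyF.headD {f : α → List β} {g : α → β} (hf : PolyF B f) (hg : PolyF B g) :
    PolyF B (fun a => (f a).headD (g a)) := by
  obtain ⟨F, hF, hf⟩ := hf
  obtain ⟨G, hG, hg⟩ := hg
  refine ⟨fun x => cas (F x) (G x) (G x) (hdl (F x)),
    lib.cas hF hG hG (fp_hdl hF), fun a => ?_⟩
  simp only
  rw [hf, hg]
  cases f a with
  | nil => rfl
  | cons b l =>
    have h1 : cas (se (b :: l)) (se (g a)) (se (g a)) (hdl (se (b :: l))) = hdl (se (b :: l)) := by
      rw [se_cons]; rfl
    rw [h1, hdl_se]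
    rfl

@[fun_prop]
theorem PolyF.isEmpty {f : α → List β} (hf : PolyF B f) : PolyF B (fun a => (f a).isEmpty) := by
  obtain ⟨F, hF, hf⟩ := hf
  refine ⟨fun x => cas (F x) [true] [false] [false],
    lib.cas hF (lib.const _) (lib.const _) (lib.const _), fun a => ?_⟩
  simp only
  rw [hf]
  cases f a <;> rfl

/-- Truncation of the accumulator. -/
noncomputable def trn (bd w : Str) : Str := if bd.length < w.length then [] else w

theorem length_trn (bd w : Str) : (trn bd w).length ≤ bd.length := by
  unfold trn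
  split_ifs with h
  · simp
  · omega

theorem trn_of_le {bd w : Str} (h : w.length ≤ bd.length) : trn bd w = w := by
  unfold trn
  rw [if_neg (by omega)]

/-- One round of the loop computing a fold. -/
noncomputable def rnd (H : Str → Str) (st : Str) : Str :=
  cas (fs (sn (sn st))) st st
    (pr (fs st) (pr (fs (sn st)) (pr (tll (fs (sn (sn st))))
      (trn (fs (sn st)) (H (pr (fs st) (pr (sn (sn (sn st))) (hdl (fs (sn (sn st)))))))))))

theorem rnd_nil (H : Str → Str) (x bd acc : Str) :
    rnd H (pr x (pr bd (pr [] acc))) = pr x (pr bd (pr [] acc)) := by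
  unfold rnd
  simp only [sn_pr, fs_pr]
  rfl

theorem rnd_cons (H : Str → Str) (x bd b l acc : Str) :
    rnd H (pr x (pr bd (pr (true :: pr b l) acc))) =
      pr x (pr bd (pr l (trn bd (H (pr x (pr acc b)))))) := by
  unfold rnd
  simp only [sn_pr, fs_pr, tll, hdl, List.tail_cons]
  rfl

theorem rnd_cons' (H : Str → Str) (x bd r acc : Str) :
    rnd H (pr x (pr bd (pr r acc))) = pr x (pr bd (pr r acc)) ∨
    ∃ acc', rnd H (pr x (pr bd (pr r acc))) = pr x (pr bd (pr (tll r) acc')) ∧
      acc'.length ≤ bd.length := by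
  cases r with
  | nil => left; exact rnd_nil H x bd acc
  | cons c r =>
    cases c with
    | false => left; unfold rnd; simp only [sn_pr, fs_pr]; rfl
    | true =>
      right
      refine ⟨trn bd (H (pr x (pr acc (hdl (true :: r))))), ?_, length_trn _ _⟩
      unfold rnd
      simp only [sn_pr, fs_pr]
      rfl

theorem length_tll (x : Str) : (tll x).length ≤ x.length := by
  unfold tll
  have := length_sn x.tail
  simp at this
  omega

theorem fp_rnd {H : Str → Str} (hH : FP {B} (fun _ => H)) : FP {B} (fun _ st => rnd H st) := by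
  have h0 : FP {B} (fun _ (st : Str) => st) := lib.idn
  have h1 : FP {B} (fun _ (st : Str) => fs st) := lib.fst h0
  have h2 : FP {B} (fun _ (st : Str) => fs (sn st)) := lib.fst (lib.snd h0)
  have h3 : FP {B} (fun _ (st : Str) => fs (sn (sn st))) := lib.fst (lib.snd (lib.snd h0))
  have h4 : FP {B} (fun _ (st : Str) => sn (sn (sn st))) := lib.snd (lib.snd (lib.snd h0))
  have h5 : FP {B} (fun _ (st : Str) => tll (fs (sn (sn st)))) := fp_tll h3
  have h6 : FP {B} (fun _ (st : Str) => hdl (fs (sn (sn st)))) := fp_hdl h3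
  have h7 : FP {B} (fun _ (st : Str) =>
      H (pr (fs st) (pr (sn (sn (sn st))) (hdl (fs (sn (sn st))))))) :=
    lib.comp (lib.pair h1 (lib.pair h4 h6)) hH
  have h8 : FP {B} (fun _ (st : Str) => trn (fs (sn st))
      (H (pr (fs st) (pr (sn (sn (sn st))) (hdl (fs (sn (sn st)))))))) := by
    have hd := ((tls {B}).2.2 _ _ h2 h7).2.1
    have h9 := (tls {B}).2.1 (fun _ (st : Str) => (fs (sn st)).length <
      (H (pr (fs st) (pr (sn (sn (sn st))) (hdl (fs (sn (sn st))))))).length)
      (fun _ _ => ([] : Str)) _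
      (hd.congr fun _ _ _ => congrArg (fun b : Bool => [b]) (decide_eq_decide.2 Iff.rfl))
      (lib.const []) h7
    refine FP.congr h9 fun B' _ st => ?_
    unfold trn
    split_ifs <;> rfl
  exact lib.cas h3 h0 h0 (lib.pair h1 (lib.pair h2 (lib.pair h5 h8)))

/-- Closure under folds of polynomially bounded size. -/
theorem PolyF.foldl {l : α → List β} {g : α → γ} {h : α → γ → β → γ}
    (hl : PolyF B l) (hg : PolyF B g) (hh : PolyF B (fun p : α × γ × β => h p.1 p.2.1 p.2.2))
    (Q : Polynomial ℕ)
    (hQ : ∀ a, ∀ j ≤ (l a).length, sz (((l a).take j).foldl (h a) (g a)) ≤ Q.eval (sz a)) :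
    PolyF B (fun a => (l a).foldl (h a) (g a)) := by
  obtain ⟨L, hL, hl⟩ := hl
  obtain ⟨G, hG, hg⟩ := hg
  obtain ⟨H, hH, hh⟩ := hh
  have h0 : FP {B} (fun _ (x : Str) => x) := lib.idn
  have hbd : FP {B} (fun _ (x : Str) => un (Q.eval x.length)) := una {B} Q _ h0
  have hst : FP {B} (fun _ (x : Str) => pr x (pr (un (Q.eval x.length)) (pr (L x) (G x)))) :=
    lib.pair h0 (lib.pair hbd (lib.pair hL hG))
  obtain ⟨qL, hqL⟩ := hL.length
  obtain ⟨qG, hqG⟩ := hG.length
  have hB : B ∈ ({B} : Set (Set Str)) := rfl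
  have key : ∀ (x : Str) (u : Str), ∃ r acc : Str,
      u.foldl (fun a (_ : Bool) => rnd H a) (pr x (pr (un (Q.eval x.length)) (pr (L x) (G x)))) =
        pr x (pr (un (Q.eval x.length)) (pr r acc)) ∧ r.length ≤ (L x).length ∧
        acc.length ≤ (G x).length + Q.eval x.length := by
    intro x u
    induction u using List.reverseRecOn with
    | nil => exact ⟨L x, G x, rfl, le_rfl, by omega⟩
    | append_singleton u b ih =>
      obtain ⟨r, acc, h1, h2, h3⟩ := ih
      rw [List.foldl_append, h1]
      simp only [List.foldl_cons, List.foldl_nil]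
      rcases rnd_cons' H x (un (Q.eval x.length)) r acc with h | ⟨acc', h, h'⟩
      · exact ⟨r, acc, h, h2, h3⟩
      · refine ⟨tll r, acc', h, (length_tll r).trans h2, ?_⟩
        simp only [List.length_replicate] at h'
        omega
  have hfold : FP {B} (fun _ (x : Str) => (L x).foldl (fun a (_ : Bool) => rnd H a)
      (pr x (pr (un (Q.eval x.length)) (pr (L x) (G x))))) := by
    refine lib.fold (g := fun _ _ a => rnd H a) hL hst (fun _ => fp_rnd hH)
      ⟨2 * X + 2 * Q + 2 * qL + qG + Q + 3, ?_⟩
    intro B' hB' x u hu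
    obtain ⟨r, acc, h1, h2, h3⟩ := key x u
    rw [h1]
    have e1 := hqL B rfl x
    have e2 := hqG B rfl x
    simp only [length_pr, List.length_replicate, eval_add, eval_mul, eval_ofNat, eval_X]
    omega
  refine ⟨fun x => sn (sn (sn ((L x).foldl (fun a (_ : Bool) => rnd H a)
    (pr x (pr (un (Q.eval x.length)) (pr (L x) (G x))))))),
    lib.snd (lib.snd (lib.snd hfold)), fun a => ?_⟩
  have key2 : ∀ (j : ℕ) (u : Str), u.length = j → u.foldl (fun a (_ : Bool) => rnd H a)
      (pr (se a) (pr (un (Q.eval (se a).length)) (pr (L (se a)) (G (se a))))) =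
      pr (se a) (pr (un (Q.eval (se a).length)) (pr (se ((l a).drop j))
        (se (((l a).take j).foldl (h a) (g a))))) := by
    intro j
    induction j with
    | zero =>
      intro u hu
      rw [List.length_eq_zero_iff.1 hu, hl, hg]
      simp
    | succ j ih =>
      intro u hu
      obtain ⟨v, b, rfl⟩ : ∃ v b, u = v ++ [b] := by
        rcases List.eq_nil_or_concat' u with h | ⟨v, b, h⟩
        · subst h; simp at hu
        · exact ⟨v, b, h⟩
      rw [List.foldl_append, ih v (by simpa using hu)]
      simp only [List.foldl_cons, List.foldl_nil]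
      by_cases hj : j < (l a).length
      · rw [List.drop_eq_getElem_cons hj, se_cons, rnd_cons]
        have e1 : H (pr (se a) (pr (se (((l a).take j).foldl (h a) (g a))) (se (l a)[j]))) =
            se (((l a).take (j + 1)).foldl (h a) (g a)) := by
          have := hh (a, ((l a).take j).foldl (h a) (g a), (l a)[j])
          rw [se_pair, se_pair] at this
          simp only at this
          rw [this]
          congr 1
          rw [List.take_add_one, List.foldl_append, List.getElem?_eq_getElem hj]
          rfl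
        rw [e1, trn_of_le]
        have := hQ a (j + 1) (by omega)
        simpa [sz] using this
      · have e1 : (l a).drop j = [] := by rw [List.drop_eq_nil_iff]; omega
        have e2 : (l a).drop (j + 1) = [] := by rw [List.drop_eq_nil_iff]; omega
        have e3 : (l a).take (j + 1) = (l a).take j := by
          rw [List.take_of_length_le (by omega), List.take_of_length_le (by omega)]
        rw [e1, e2, e3]
        exact rnd_nil _ _ _ _
  simp only
  rw [key2 _ _ rfl]
  simp only [sn_pr]
  rw [hl]
  have h5 := length_le_sz (l a)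
  unfold sz at h5
  rw [List.take_of_length_le (by omega)]

/-- Closure under folds of additive growth. -/
theorem PolyF.foldl_add {l : α → List β} {g : α → γ} {h : α → γ → β → γ}
    (hl : PolyF B l) (hg : PolyF B g) (hh : PolyF B (fun p : α × γ × β => h p.1 p.2.1 p.2.2))
    (K : Polynomial ℕ) (hK : ∀ a s, ∀ b ∈ l a, sz (h a s b) ≤ sz s + K.eval (sz a)) :
    PolyF B (fun a => (l a).foldl (h a) (g a)) := by
  obtain ⟨ql, hql⟩ := hl.size
  obtain ⟨qg, hqg⟩ := hg.size
  refine PolyF.foldl hl hg hh (qg + ql * K) ?_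
  intro a j hj
  have key : ∀ (t : List β) (s : γ), (∀ b ∈ t, b ∈ l a) →
      sz (t.foldl (h a) s) ≤ sz s + t.length * K.eval (sz a) := by
    intro t
    induction t with
    | nil => intro s _; simp
    | cons b t ih =>
      intro s ht
      have h1 := ih (h a s b) (fun c hc => ht c (by simp [hc]))
      have h2 := hK a s b (ht b (by simp))
      simp only [List.foldl_cons, List.length_cons]
      rw [Nat.succ_mul]
      omega
  have h1 := key ((l a).take j) (g a) (fun b hb => List.mem_of_mem_take hb)
  have h2 := hqg a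
  have h3 : ((l a).take j).length ≤ ql.eval (sz a) := by
    have := length_le_sz (l a)
    have := hql a
    simp
    omega
  have h4 : ((l a).take j).length * K.eval (sz a) ≤ ql.eval (sz a) * K.eval (sz a) :=
    Nat.mul_le_mul_right _ h3
  simp only [eval_add, eval_mul]
  omega

theorem PolyF.out {f : α → β} (h : PolyF B f) :
    ∃ F : Str → Str, FP {B} (fun _ => F) ∧ ∀ a, F (se a) = se (f a) := h

theorem PolyF.mk {f : α → β} (h : ∃ F : Str → Str, FP {B} (fun _ => F) ∧ ∀ a, F (se a) = se (f a)) :
    PolyF B f := h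

attribute [irreducible] PolyF

end Pool.TL
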