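import Pool.Agent.Work.OracleTyped_h80.Base
import Mathlib.Tactic

/-!
A library of polynomial-time functions on lists and natural numbers.
-/

open Pool.IC Pool.GL Polynomial

namespace Pool.TL

variable {α β γ δ : Type} [SE α] [SE β] [SE γ] [SE δ] {B : Set Str}

@[fun_prop]
theorem PolyF.reverse {l : α → List β} (hl : PolyF B l) : PolyF B (fun a => (l a).reverse) := by
  have h : PolyF B (fun l : List β => l.foldl (fun acc b => b :: acc) []) := by
    refine PolyF.foldl_add (l := fun l => l) (g := fun _ => []) (h := fun _ acc b => b :: acc)
      (by fun_prop) (by fun_prop) (by fun_prop) (X + 1) ?_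
    intro l acc b hb
    have := sz_le_of_mem hb
    simp
    omega
  refine PolyF.comp (f := fun l : List β => l.reverse) (h.congrF fun l => ?_) hl
  have : ∀ (u v : List β), u.foldl (fun acc b => b :: acc) v = u.reverse ++ v := by
    intro u
    induction u with
    | nil => intro v; rfl
    | cons a u ih => intro v; simp [ih]
  simpa using this l []

@[fun_prop]
theorem PolyF.append {l l' : α → List β} (hl : PolyF B l) (hl' : PolyF B l') :
    PolyF B (fun a => l a ++ l' a) := by
  have h : PolyF B (fun p : List β × List β => p.1.reverse.foldl (fun acc b => b :: acc) p.2) := by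
    refine PolyF.foldl_add (l := fun p : List β × List β => p.1.reverse) (g := fun p => p.2)
      (h := fun _ acc b => b :: acc) (by fun_prop) (by fun_prop) (by fun_prop) (X + 1) ?_
    intro l acc b hb
    have := sz_le_of_mem (List.mem_reverse.1 hb)
    simp
    omega
  refine PolyF.comp (f := fun p : List β × List β => p.1 ++ p.2) (g := fun a => (l a, l' a))
    (h.congrF fun l => ?_) (by fun_prop)
  have : ∀ (u v : List β), u.reverse.foldl (fun acc b => b :: acc) v = u ++ v := by
    intro u v
    induction u generalizing v with
    | nil => rfl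
    | cons a u ih => simp [List.foldl_append, ih]
  exact this _ _

theorem PolyF.map {l : α → List β} {f : α → β → γ} (hl : PolyF B l)
    (hf : PolyF B (fun p : α × β => f p.1 p.2)) : PolyF B (fun a => (l a).map (f a)) := by
  obtain ⟨q, hq⟩ := hf.size
  obtain ⟨ql, hql⟩ := hl.size
  have h : PolyF B (fun a => (l a).foldl (fun acc b => f a b :: acc) []) := by
    have hf' : PolyF B (fun p : α × List γ × β => f p.1 p.2.2) :=
      PolyF.comp (f := fun p : α × β => f p.1 p.2) (g := fun p : α × List γ × β => (p.1, p.2.2))
        hf (by fun_prop)
    refine PolyF.foldl_add (l := l) (g := fun _ => []) (h := fun a acc b => f a b :: acc)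
      hl (by fun_prop) (by fun_prop) (2 * q.comp (2 * X + ql + 1) + 2) ?_
    intro a acc b hb
    have h1 := sz_le_of_mem hb
    have h2 := hql a
    have h3 := hq (a, b)
    have h4 : q.eval (sz (a, b)) ≤ (q.comp (2 * X + ql + 1)).eval (sz a) := by
      rw [eval_comp]
      apply poly_mono
      simp
      omega
    simp only [sz_cons, eval_add, eval_mul, eval_ofNat]
    simp only at h3
    omega
  have h' : PolyF B (fun a => ((l a).foldl (fun acc b => f a b :: acc) []).reverse) := by fun_prop
  refine h'.congrF fun a => ?_
  have : ∀ (u : List β) (v : List γ), (u.foldl (fun acc b => f a b :: acc) v).reverse =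
      v.reverse ++ u.map (f a) := by
    intro u
    induction u with
    | nil => simp
    | cons b u ih => intro v; simp [ih]
  simpa using this (l a) []

theorem PolyF.flatMap {l : α → List β} {f : α → β → List γ} (hl : PolyF B l)
    (hf : PolyF B (fun p : α × β => f p.1 p.2)) : PolyF B (fun a => (l a).flatMap (f a)) := by
  obtain ⟨q, hq⟩ := hf.size
  obtain ⟨ql, hql⟩ := hl.size
  have h : PolyF B (fun a => (l a).foldl (fun acc b => acc ++ f a b) []) := by
    have hf' : PolyF B (fun p : α × List γ × β => f p.1 p.2.2) :=
      PolyF.comp (f := fun p : α × β => f p.1 p.2) (g := fun p : α × List γ × β => (p.1, p.2.2))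
        hf (by fun_prop)
    refine PolyF.foldl_add (l := l) (g := fun _ => []) (h := fun a acc b => acc ++ f a b)
      hl (by fun_prop) (by fun_prop) (q.comp (2 * X + ql + 1) + 1) ?_
    intro a acc b hb
    have h1 := sz_le_of_mem hb
    have h2 := hql a
    have h3 := hq (a, b)
    have h4 : q.eval (sz (a, b)) ≤ (q.comp (2 * X + ql + 1)).eval (sz a) := by
      rw [eval_comp]
      apply poly_mono
      simp
      omega
    have h5 := sz_append acc (f a b)
    simp only [eval_add, eval_one]
    simp only at h3
    omega
  refine h.congrF fun a => ?_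
  have : ∀ (u : List β) (v : List γ), (u.foldl (fun acc b => acc ++ f a b) v) =
      v ++ u.flatMap (f a) := by
    intro u
    induction u with
    | nil => simp
    | cons b u ih => intro v; simp [ih]
  simpa using this (l a) []

theorem PolyF.filter {l : α → List β} {f : α → β → Bool} (hl : PolyF B l)
    (hf : PolyF B (fun p : α × β => f p.1 p.2)) : PolyF B (fun a => (l a).filter (f a)) := by
  have h : PolyF B (fun a => (l a).flatMap (fun b => bif f a b then [b] else [])) := by
    refine PolyF.flatMap hl (f := fun a b => bif f a b then [b] else []) ?_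
    fun_prop
  refine h.congrF fun a => ?_
  induction l a with
  | nil => rfl
  | cons b u ih =>
    simp only [List.flatMap_cons, ih, List.filter_cons]
    cases f a b <;> simp

@[fun_prop]
theorem PolyF.length {l : α → List β} (hl : PolyF B l) : PolyF B (fun a => (l a).length) := by
  have h : PolyF B (fun a => (l a).foldl (fun (acc : ℕ) _ => acc + 1) 0) := by
    refine PolyF.foldl_add (l := l) (g := fun _ => 0) (h := fun _ (acc : ℕ) _ => acc + 1)
      hl (by fun_prop) (by fun_prop) 2 ?_
    intro a acc b hb
    simp
  refine h.congrF fun a => ?_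
  have : ∀ (u : List β) (v : ℕ), (u.foldl (fun (acc : ℕ) _ => acc + 1) v) = v + u.length := by
    intro u
    induction u with
    | nil => simp
    | cons b u ih => intro v; simp [ih]; omega
  simpa using this (l a) 0

/-- The list of `n` units. -/
def units (n : ℕ) : List Unit := List.replicate n ()

@[simp] theorem length_units (n : ℕ) : (units n).length = n := by simp [units]

@[fun_prop]
theorem PolyF.units {f : α → ℕ} (hf : PolyF B f) : PolyF B (fun a => TL.units (f a)) := by
  refine PolyF.comp (f := TL.units) ?_ hf
  refine PolyF.mk ⟨fun x => x.foldl (fun a (_ : Bool) => true :: false :: a) [], ?_, ?_⟩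
  · have key : ∀ u : Str, (u.foldl (fun a (_ : Bool) => true :: false :: a) ([] : Str)).length =
        2 * u.length := by
      intro u
      induction u using List.reverseRecOn with
      | nil => rfl
      | append_singleton u b ih =>
        rw [List.foldl_append]
        simp only [List.foldl_cons, List.foldl_nil, List.length_cons, ih, List.length_append,
          List.length_nil]
        omega
    refine lib.fold (f := fun _ x => x) (h := fun _ _ => []) (g := fun _ _ a => true :: false :: a)
      lib.idn (lib.const []) (fun _ => lib.cons true (lib.cons false lib.idn)) ⟨2 * X, ?_⟩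
    intro _ _ x l hl
    rw [key]
    have := hl.length_le
    simp only [eval_mul, eval_ofNat, eval_X]
    omega
  · intro n
    have : ∀ n, (un n).foldl (fun a (_ : Bool) => true :: false :: a) ([] : Str) =
        se (TL.units n) := by
      intro n
      induction n with
      | zero => rfl
      | succ n ih =>
        have e : un (n + 1) = un n ++ [true] := by
          simp [un, List.replicate_succ']
        rw [e, List.foldl_append, ih]
        rfl
    exact this n

theorem foldl_units {γ : Type} (f : γ → γ) (n : ℕ) (s : γ) :
    (units n).foldl (fun s _ => f s) s = f^[n] s := by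
  induction n generalizing s with
  | zero => rfl
  | succ n ih =>
    simp only [units, List.replicate_succ, List.foldl_cons, Function.iterate_succ_apply] at ih ⊢
    exact ih _

/-- Iteration with additive growth. -/
theorem PolyF.iterate_add {n : α → ℕ} {g : α → γ} {h : α → γ → γ}
    (hn : PolyF B n) (hg : PolyF B g) (hh : PolyF B (fun p : α × γ => h p.1 p.2))
    (K : Polynomial ℕ) (hK : ∀ a s, sz (h a s) ≤ sz s + K.eval (sz a)) :
    PolyF B (fun a => (h a)^[n a] (g a)) := by
  have h' : PolyF B (fun p : α × γ × Unit => h p.1 p.2.1) :=
      PolyF.comp (f := fun p : α × γ => h p.1 p.2) (g := fun p : α × γ × Unit => (p.1, p.2.1))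
        hh (by fun_prop)
  refine (PolyF.foldl_add (l := fun a => TL.units (n a)) (g := g) (h := fun a s _ => h a s)
    (by fun_prop) hg h' K (fun a s b _ => hK a s)).congrF fun a => ?_
  rw [foldl_units]

@[fun_prop]
theorem PolyF.add {f g : α → ℕ} (hf : PolyF B f) (hg : PolyF B g) : PolyF B (fun a => f a + g a) := by
  refine (PolyF.iterate_add (n := g) (g := f) (h := fun _ s => s + 1) hg hf (by fun_prop) 2
    (fun a s => by simp)).congrF fun a => ?_
  induction g a with
  | zero => rfl
  | succ n ih => rw [Function.iterate_succ_apply', ih]; rfl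

@[fun_prop]
theorem PolyF.sub {f g : α → ℕ} (hf : PolyF B f) (hg : PolyF B g) : PolyF B (fun a => f a - g a) := by
  refine (PolyF.iterate_add (n := g) (g := f) (h := fun _ s => s - 1) hg hf (by fun_prop) 2
    (fun a s => by simp only [sz_nat]; omega)).congrF fun a => ?_
  induction g a with
  | zero => rfl
  | succ n ih => rw [Function.iterate_succ_apply', ih]; rfl

@[fun_prop]
theorem PolyF.mul {f g : α → ℕ} (hf : PolyF B f) (hg : PolyF B g) : PolyF B (fun a => f a * g a) := by
  obtain ⟨q, hq⟩ := hf.size
  refine (PolyF.iterate_add (n := g) (g := fun _ => 0) (h := fun a s => s + f a) hg (by fun_prop)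
    (by fun_prop) q
    (fun a s => by have := hq a; simp at this ⊢; omega)).congrF fun a => ?_
  induction g a with
  | zero => rfl
  | succ n ih => rw [Function.iterate_succ_apply', ih]; rfl

@[fun_prop]
theorem PolyF.le {f g : α → ℕ} (hf : PolyF B f) (hg : PolyF B g) :
    PolyF B (fun a => decide (f a ≤ g a)) := by
  have : PolyF B (fun a => decide (f a - g a = 0)) := by fun_prop
  exact this.congrF fun a => by simp [Nat.sub_eq_zero_iff_le]

@[fun_prop]
theorem PolyF.lt {f g : α → ℕ} (hf : PolyF B f) (hg : PolyF B g) :
    PolyF B (fun a => decide (f a < g a)) := by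
  have : PolyF B (fun a => decide (f a + 1 ≤ g a)) := by fun_prop
  exact this.congrF fun a => by simp [Nat.succ_le_iff]

@[fun_prop]
theorem PolyF.natEq {f g : α → ℕ} (hf : PolyF B f) (hg : PolyF B g) :
    PolyF B (fun a => decide (f a = g a)) := by
  have : PolyF B (fun a => decide (f a ≤ g a) && decide (g a ≤ f a)) := by fun_prop
  refine this.congrF fun a => ?_
  by_cases h : f a = g a
  · simp [h]
  · simp [h]; omega

@[fun_prop]
theorem PolyF.boolEq {f g : α → Bool} (hf : PolyF B f) (hg : PolyF B g) :
    PolyF B (fun a => decide (f a = g a)) := by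
  have : PolyF B (fun a => bif f a then g a else !(g a)) := by fun_prop
  refine this.congrF fun a => ?_
  cases f a <;> cases g a <;> rfl

@[fun_prop]
theorem PolyF.decideAnd {f g : α → Prop} [DecidablePred f] [DecidablePred g]
    (hf : PolyF B (fun a => decide (f a))) (hg : PolyF B (fun a => decide (g a))) :
    PolyF B (fun a => decide (f a ∧ g a)) := by
  refine (PolyF.and hf hg).congrF fun a => ?_
  simp

@[fun_prop]
theorem PolyF.decideOr {f g : α → Prop} [DecidablePred f] [DecidablePred g]
    (hf : PolyF B (fun a => decide (f a))) (hg : PolyF B (fun a => decide (g a))) :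
    PolyF B (fun a => decide (f a ∨ g a)) := by
  refine (PolyF.or hf hg).congrF fun a => ?_
  simp

@[fun_prop]
theorem PolyF.decideNot {f : α → Prop} [DecidablePred f]
    (hf : PolyF B (fun a => decide (f a))) :
    PolyF B (fun a => decide (¬ f a)) := by
  refine (PolyF.not hf).congrF fun a => ?_
  simp

@[fun_prop]
theorem PolyF.polyEval (p : Polynomial ℕ) {f : α → ℕ} (hf : PolyF B f) :
    PolyF B (fun a => p.eval (f a)) := by
  induction p using Polynomial.induction_on' with
  | add p q hp hq => simpa using PolyF.add hp hq
  | monomial n c =>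
    simp only [eval_monomial]
    refine PolyF.mul (PolyF.const _) ?_
    induction n with
    | zero => simpa using PolyF.const _
    | succ n ih =>
      simp only [pow_succ]
      exact ih.mul hf

@[fun_prop]
theorem PolyF.range {f : α → ℕ} (hf : PolyF B f) : PolyF B (fun a => List.range (f a)) := by
  obtain ⟨q, hq⟩ := hf.size
  have h1 : PolyF B (fun a => (fun s : ℕ × List ℕ => (s.1 + 1, s.1 :: s.2))^[f a] (0, [])) := by
    have key : ∀ n, (fun s : ℕ × List ℕ => (s.1 + 1, s.1 :: s.2))^[n] (0, []) =
        (n, (List.range n).reverse) := by
      intro n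
      induction n with
      | zero => rfl
      | succ n ih => rw [Function.iterate_succ_apply', ih]; simp [List.range_succ]
    have key2 : ∀ n, sz (n, (List.range n).reverse) ≤ 2 * n * n + 4 * n + 4 := by
      intro n
      induction n with
      | zero => simp
      | succ n ih =>
        simp only [List.range_succ, List.reverse_append, List.reverse_cons, List.reverse_nil,
          List.nil_append, List.singleton_append, sz_pair, sz_cons, sz_nat] at ih ⊢
        ring_nf at ih ⊢
        omega
    have h' : PolyF B (fun p : α × (ℕ × List ℕ) × Unit => (p.2.1.1 + 1, p.2.1.1 :: p.2.1.2)) := by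
      fun_prop
    refine (PolyF.foldl (l := fun a => TL.units (f a)) (g := fun _ => ((0 : ℕ), ([] : List ℕ)))
      (h := fun _ s _ => (s.1 + 1, s.1 :: s.2)) (by fun_prop) (by fun_prop) h'
      (2 * q * q + 4 * q + 4) ?_).congrF fun a => ?_
    · intro a j hj
      rw [show (TL.units (f a)).take j = TL.units j by
        simp at hj
        simp [TL.units, List.take_replicate]
        omega]
      rw [foldl_units (fun s : ℕ × List ℕ => (s.1 + 1, s.1 :: s.2)), key]
      refine (key2 j).trans ?_
      have h3 := hq a
      simp at h3 hj
      have h4 : j ≤ q.eval (sz a) := by omega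
      simp only [eval_add, eval_mul, eval_ofNat]
      have := Nat.mul_le_mul h4 h4
      nlinarith
    · rw [foldl_units (fun s : ℕ × List ℕ => (s.1 + 1, s.1 :: s.2))]
  have h2 : PolyF B (fun a => ((fun s : ℕ × List ℕ => (s.1 + 1, s.1 :: s.2))^[f a] (0, [])).2.reverse) := by
    fun_prop
  refine h2.congrF fun a => ?_
  have key : ∀ n, (fun s : ℕ × List ℕ => (s.1 + 1, s.1 :: s.2))^[n] (0, []) =
      (n, (List.range n).reverse) := by
    intro n
    induction n with
    | zero => rfl
    | succ n ih => rw [Function.iterate_succ_apply', ih]; simp [List.range_succ]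
  rw [key]
  simp

@[fun_prop]
theorem PolyF.drop {n : α → ℕ} {l : α → List β} (hn : PolyF B n) (hl : PolyF B l) :
    PolyF B (fun a => (l a).drop (n a)) := by
  refine (PolyF.iterate_add (n := n) (g := l) (h := fun _ s => s.tail) hn hl (by fun_prop) 0
    (fun a s => by cases s <;> simp; omega)).congrF fun a => ?_
  induction n a with
  | zero => simp
  | succ n ih => rw [Function.iterate_succ_apply', ih]; simp

@[fun_prop]
theorem PolyF.getD {n : α → ℕ} {l : α → List β} {d : α → β} (hn : PolyF B n) (hl : PolyF B l)
    (hd : PolyF B d) : PolyF B (fun a => (l a).getD (n a) (d a)) := by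
  have : PolyF B (fun a => ((l a).drop (n a)).headD (d a)) := by fun_prop
  refine this.congrF fun a => ?_
  rw [List.headD_eq_head?_getD, List.head?_drop, List.getD_eq_getElem?_getD]

theorem PolyF.sum {l : α → List ℕ} (hl : PolyF B l) : PolyF B (fun a => (l a).sum) := by
  obtain ⟨ql, hql⟩ := hl.size
  refine (PolyF.foldl_add (l := l) (g := fun _ => 0) (h := fun _ s b => s + b) hl
    (by fun_prop) (by fun_prop) ql ?_).congrF fun a => ?_
  · intro a s b hb
    have := sz_le_of_mem hb
    have := hql a
    simp at *
    omega
  · rw [List.sum_eq_foldl]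

theorem PolyF.all {l : α → List β} {f : α → β → Bool} (hl : PolyF B l)
    (hf : PolyF B (fun p : α × β => f p.1 p.2)) : PolyF B (fun a => (l a).all (f a)) := by
  have h : PolyF B (fun a => ((l a).filter (fun b => !(f a b))).isEmpty) := by
    refine PolyF.isEmpty (PolyF.filter hl (f := fun a b => !(f a b)) ?_)
    fun_prop
  refine h.congrF fun a => ?_
  induction l a with
  | nil => rfl
  | cons b u ih =>
    simp only [List.filter_cons, List.all_cons, ← ih]
    cases f a b <;> simp

end Pool.TL
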