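import Pool.Agent.Work.OracleTyped_h80.Lib
import Pool.Agent.Work.MP_cb380d_h91.Model
import Mathlib.Tactic

/-!
More polynomial-time functions: options, equality, raw strings, lists.
-/

open Pool.IC Pool.GL Polynomial

namespace Pool.TL

variable {α β γ δ : Type} [SE α] [SE β] [SE γ] [SE δ] {B : Set Str}

/-! ### Options -/

instance : SE (Option α) := ⟨fun o => opt (o.map se)⟩

@[simp] theorem se_none : se (none : Option α) = ([] : Str) := rfl
@[simp] theorem se_some (a : α) : se (some a) = true :: se a := rfl
@[simp] theorem sz_none : sz (none : Option α) = 0 := rfl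
@[simp] theorem sz_some (a : α) : sz (some a) = sz a + 1 := rfl

@[fun_prop]
theorem PolyF.some {f : α → β} (hf : PolyF B f) : PolyF B (fun a => some (f a)) := by
  obtain ⟨F, hF, hf⟩ := hf.out
  exact PolyF.mk ⟨fun x => true :: F x, lib.cons true hF, fun a => by beta_reduce; rw [hf]; rfl⟩

@[fun_prop]
theorem PolyF.isSome {f : α → Option β} (hf : PolyF B f) : PolyF B (fun a => (f a).isSome) := by
  obtain ⟨F, hF, hf⟩ := hf.out
  refine PolyF.mk ⟨fun x => cas (F x) [false] [true] [true],
    lib.cas hF (lib.const _) (lib.const _) (lib.const _), fun a => ?_⟩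
  simp only
  rw [hf]
  cases f a <;> rfl

@[fun_prop]
theorem PolyF.isNone {f : α → Option β} (hf : PolyF B f) : PolyF B (fun a => (f a).isNone) := by
  obtain ⟨F, hF, hf⟩ := hf.out
  refine PolyF.mk ⟨fun x => cas (F x) [true] [false] [false],
    lib.cas hF (lib.const _) (lib.const _) (lib.const _), fun a => ?_⟩
  simp only
  rw [hf]
  cases f a <;> rfl

@[fun_prop]
theorem PolyF.getDo {f : α → Option β} {g : α → β} (hf : PolyF B f) (hg : PolyF B g) :
    PolyF B (fun a => (f a).getD (g a)) := by
  obtain ⟨F, hF, hf⟩ := hf.out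
  obtain ⟨G, hG, hg⟩ := hg.out
  refine PolyF.mk ⟨fun x => cas (F x) (G x) (G x) ((F x).tail),
    lib.cas hF hG hG (lib.tail hF), fun a => ?_⟩
  simp only
  rw [hf, hg]
  cases f a <;> rfl

@[fun_prop]
theorem PolyF.headOpt {f : α → List β} (hf : PolyF B f) : PolyF B (fun a => (f a).head?) := by
  obtain ⟨F, hF, hf⟩ := hf.out
  refine PolyF.mk ⟨fun x => cas (F x) [] [] (true :: hdl (F x)),
    lib.cas hF (lib.const _) (lib.const _) (lib.cons true (fp_hdl hF)), fun a => ?_⟩
  simp only
  rw [hf]
  cases f a with
  | nil => rfl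
  | cons b l =>
    have h1 : cas (se (b :: l)) [] [] (true :: hdl (se (b :: l))) = true :: hdl (se (b :: l)) := by
      rw [se_cons]; rfl
    rw [h1, hdl_se]
    rfl

@[fun_prop]
theorem PolyF.getElemOpt {f : α → List β} {n : α → ℕ} (hf : PolyF B f) (hn : PolyF B n) :
    PolyF B (fun a => (f a)[n a]?) := by
  have : PolyF B (fun a => ((f a).drop (n a)).head?) := by fun_prop
  refine this.congrF fun a => ?_
  rw [List.head?_drop]

/-! ### Equality -/

/-- Types with injective encoding. -/
class SEI (α : Type) [SE α] : Prop where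
  inj : ∀ a b : α, se a = se b → a = b

instance : SEI Unit := ⟨fun _ _ _ => rfl⟩
instance : SEI Bool := ⟨fun a b h => by simpa using h⟩
instance : SEI ℕ := ⟨fun a b h => by
  have := congrArg List.length h
  simpa using this⟩
instance [SEI α] [SEI β] : SEI (α × β) := ⟨fun a b h => by
  simp only [se_pair] at h
  have h1 := congrArg fs h
  have h2 := congrArg sn h
  rw [fs_pr, fs_pr] at h1
  rw [sn_pr, sn_pr] at h2
  exact Prod.ext (SEI.inj _ _ h1) (SEI.inj _ _ h2)⟩
instance [SEI α] : SEI (Option α) := ⟨fun a b h => by
  cases a with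
  | none => cases b with
    | none => rfl
    | some b => simp at h
  | some a => cases b with
    | none => simp at h
    | some b =>
      simp only [se_some, List.cons.injEq, true_and] at h
      rw [SEI.inj _ _ h]⟩
instance [SEI α] : SEI (List α) := ⟨fun a => by
  induction a with
  | nil => intro b h; cases b with
    | nil => rfl
    | cons b l => simp at h
  | cons a l ih => intro b h; cases b with
    | nil => simp at h
    | cons b l' =>
      simp only [se_cons, List.cons.injEq, true_and] at h
      have h1 := congrArg fs h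
      have h2 := congrArg sn h
      rw [fs_pr, fs_pr] at h1
      rw [sn_pr, sn_pr] at h2
      rw [SEI.inj _ _ h1, ih _ h2]⟩

@[fun_prop]
theorem PolyF.eq [DecidableEq β] [SEI β] {f g : α → β} (hf : PolyF B f) (hg : PolyF B g) :
    PolyF B (fun a => decide (f a = g a)) := by
  obtain ⟨F, hF, hf⟩ := hf.out
  obtain ⟨G, hG, hg⟩ := hg.out
  refine PolyF.mk ⟨_, ((tls {B}).2.2 _ _ hF hG).1, fun a => ?_⟩
  simp only [se_bool]
  congr 1
  rw [decide_eq_decide, hf, hg]
  exact ⟨fun h => SEI.inj _ _ h, fun h => by rw [h]⟩

/-! ### Booleans and lists -/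

@[fun_prop]
theorem PolyF.xor {f g : α → Bool} (hf : PolyF B f) (hg : PolyF B g) :
    PolyF B (fun a => xor (f a) (g a)) := by
  have : PolyF B (fun a => bif f a then !(g a) else g a) := by fun_prop
  refine this.congrF fun a => ?_
  cases f a <;> cases g a <;> rfl

@[fun_prop]
theorem PolyF.take {n : α → ℕ} {l : α → List β} (hn : PolyF B n) (hl : PolyF B l) :
    PolyF B (fun a => (l a).take (n a)) := by
  have : PolyF B (fun a => (((l a).reverse.drop ((l a).length - n a))).reverse) := by fun_prop
  refine this.congrF fun a => ?_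
  by_cases h : n a ≤ (l a).length
  · rw [List.drop_reverse]
    simp only [List.reverse_reverse]
    congr 1
    omega
  · rw [List.take_of_length_le (by omega)]
    have : (l a).length - n a = 0 := by omega
    rw [this]
    simp

@[fun_prop]
theorem PolyF.replicate {n : α → ℕ} {b : α → β} (hn : PolyF B n) (hb : PolyF B b) :
    PolyF B (fun a => List.replicate (n a) (b a)) := by
  have : PolyF B (fun a => (List.range (n a)).map (fun _ => b a)) := by
    refine PolyF.map (f := fun a (_ : ℕ) => b a) (by fun_prop) ?_
    exact PolyF.comp (f := b) hb (by fun_prop)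
  refine this.congrF fun a => ?_
  simp

theorem PolyF.any {l : α → List β} {f : α → β → Bool} (hl : PolyF B l)
    (hf : PolyF B (fun p : α × β => f p.1 p.2)) : PolyF B (fun a => (l a).any (f a)) := by
  have h : PolyF B (fun a => !((l a).all (fun b => !(f a b)))) := by
    refine PolyF.not (PolyF.all hl (f := fun a b => !(f a b)) ?_)
    fun_prop
  refine h.congrF fun a => ?_
  rw [List.all_eq_not_any_not]
  simp

/-- The conditional with a polynomial-time decidable condition. -/
@[fun_prop]
theorem PolyF.ite' {c : α → Prop} {_ : ∀ a, Decidable (c a)} {f g : α → β}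
    (hc : PolyF B (fun a => decide (c a))) (hf : PolyF B f) (hg : PolyF B g) :
    PolyF B (fun a => if c a then f a else g a) := by
  refine (hc.cond hf hg).congrF fun a => ?_
  by_cases h : c a <;> simp [h]

theorem PolyF.pow {f : α → ℕ} (hf : PolyF B f) (k : ℕ) : PolyF B (fun a => f a ^ k) := by
  induction k with
  | zero => simpa using PolyF.const (B := B) (α := α) 1
  | succ k ih =>
    simp only [pow_succ]
    fun_prop

/-! ### Raw strings -/

/-- Strings encoded by themselves. -/
structure Raw where
  /-- the string -/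
  s : Str

instance : SE Raw := ⟨fun r => r.s⟩

@[simp] theorem se_raw (r : Raw) : se r = r.s := rfl
@[simp] theorem sz_raw (r : Raw) : sz r = r.s.length := rfl

theorem polyFun_iff (f : Str → Str) : PolyFun B f ↔ FP {B} (fun _ => f) := by
  unfold PolyFun FP
  simp

theorem PolyF.raw_iff (f : Str → Str) :
    PolyFun B f ↔ PolyF B (fun r : Raw => (⟨f r.s⟩ : Raw)) := by
  rw [polyFun_iff]
  constructor
  · intro h
    exact PolyF.mk ⟨f, h, fun _ => rfl⟩
  · intro h
    obtain ⟨F, hF, h⟩ := h.out
    have : F = f := funext fun x => h ⟨x⟩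
    rwa [this] at hF

theorem PolyF.rcons {f : α → Bool} {g : α → Raw} (hf : PolyF B f) (hg : PolyF B g) :
    PolyF B (fun a => (⟨f a :: (g a).s⟩ : Raw)) := by
  obtain ⟨F, hF, hf⟩ := hf.out
  obtain ⟨G, hG, hg⟩ := hg.out
  refine PolyF.mk ⟨fun x => cas (F x) [] (false :: G x) (true :: G x),
    lib.cas hF (lib.const _) (lib.cons false hG) (lib.cons true hG), fun a => ?_⟩
  simp only
  rw [hf, hg]
  cases f a <;> rfl

/-- From lists of bits to raw strings. -/
@[fun_prop]
theorem PolyF.toRaw {f : α → Str} (hf : PolyF B f) : PolyF B (fun a => (⟨f a⟩ : Raw)) := by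
  have h : PolyF B (fun l : List Bool => l.reverse.foldl (fun (s : Raw) b => (⟨b :: s.s⟩ : Raw)) ⟨[]⟩) := by
    refine PolyF.foldl_add (l := fun l : List Bool => l.reverse) (g := fun _ => (⟨[]⟩ : Raw))
      (h := fun _ (s : Raw) b => (⟨b :: s.s⟩ : Raw)) (by fun_prop) (by fun_prop)
      (PolyF.rcons (by fun_prop) (by fun_prop)) 1 ?_
    intro a s b _
    simp
  refine PolyF.comp (f := fun l : List Bool => (⟨l⟩ : Raw)) (h.congrF fun l => ?_) hf
  have : ∀ (u : List Bool) (v : Str), u.foldl (fun (s : Raw) b => (⟨b :: s.s⟩ : Raw)) ⟨v⟩ =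
      ⟨u.reverse ++ v⟩ := by
    intro u
    induction u with
    | nil => intro v; rfl
    | cons b u ih => intro v; simp [ih]
  rw [this]
  simp

/-- From raw strings to lists of bits. -/
@[fun_prop]
theorem PolyF.ofRaw {f : α → Raw} (hf : PolyF B f) : PolyF B (fun a => (f a).s) := by
  refine PolyF.comp (f := fun r : Raw => r.s) ?_ hf
  have key : ∀ u : Str, u.foldl (fun a (b : Bool) => true :: pr [b] a) ([] : Str) =
      se u.reverse := by
    intro u
    induction u using List.reverseRecOn with
    | nil => rfl
    | append_singleton u b ih =>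
      rw [List.foldl_append, ih]
      simp
  have hrev : FP {B} (fun _ (x : Str) => x.reverse) := ((tls {B}).2.2 _ _ lib.idn lib.idn).2.2.2.2.1
  have hfold : FP {B} (fun _ (x : Str) =>
      x.reverse.foldl (fun a (b : Bool) => true :: pr [b] a) ([] : Str)) := by
    refine lib.fold (f := fun _ x => x.reverse) (h := fun _ _ => [])
      (g := fun b _ a => true :: pr [b] a)
      hrev (lib.const []) (fun b => lib.cons true (lib.pair (lib.const [b]) lib.idn)) ⟨4 * X, ?_⟩
    intro _ _ x l hl
    rw [key]
    have h1 := hl.length_le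
    rw [List.length_reverse] at h1
    have h2 : ∀ v : List Bool, (se v).length = 4 * v.length := by
      intro v
      induction v with
      | nil => rfl
      | cons b v ih =>
        rw [se_cons, List.length_cons, length_pr, ih, List.length_cons]
        simp only [se_bool, List.length_cons, List.length_nil]
        omega
    rw [h2]
    simp only [List.length_reverse, eval_mul, eval_ofNat, eval_X]
    omega
  refine PolyF.mk ⟨_, hfold, fun r => ?_⟩
  simp only [se_raw]
  rw [key]
  simp

/-- Polynomial-time computable functions of strings, in the typed layer. -/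
theorem polyFun_iff_polyF (f : Str → Str) : PolyFun B f ↔ PolyF B f := by
  rw [PolyF.raw_iff]
  constructor
  · intro h
    have : PolyF B (fun l : Str => ((⟨f (⟨l⟩ : Raw).s⟩ : Raw)).s) :=
      PolyF.ofRaw (PolyF.comp (f := fun r : Raw => (⟨f r.s⟩ : Raw)) h (PolyF.toRaw PolyF.id))
    exact this
  · intro h
    exact PolyF.toRaw (PolyF.comp (f := f) h (PolyF.ofRaw PolyF.id))

theorem sz_str (z : Str) : sz z = 4 * z.length := by
  induction z with
  | nil => rfl
  | cons b v ih =>
    simp only [sz_cons, sz_bool, ih, List.length_cons]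
    omega

end Pool.TL
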